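import Mathlib

/-! # The symmetric local lemma on a finite uniform product space `V → A` -/

set_option autoImplicit false

namespace Pool.Agent.Helper14.Sq

open Finset

section

variable {V A : Type*} [Fintype V] [DecidableEq V] [Fintype A] [DecidableEq A]

/-- Exchange the coordinates outside `N`. -/
def swapEquiv (N : Finset V) : ((V → A) × (V → A)) ≃ ((V → A) × (V → A)) where
  toFun p := (N.piecewise p.1 p.2, N.piecewise p.2 p.1)
  invFun p := (N.piecewise p.1 p.2, N.piecewise p.2 p.1)
  left_inv p := by
    ext i <;> by_cases hi : i ∈ N <;> simp [hi]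
  right_inv p := by
    ext i <;> by_cases hi : i ∈ N <;> simp [hi]

omit [DecidableEq A] in
/-- Fubini for glued points. -/
theorem sum_glue (N : Finset V) (F : (V → A) → ℝ) :
    ∑ a : V → A, ∑ b : V → A, F (N.piecewise a b) =
      (Fintype.card (V → A) : ℝ) * ∑ a, F a := by
  have h1 : ∑ a : V → A, ∑ b : V → A, F (N.piecewise a b) =
      ∑ p : (V → A) × (V → A), F (swapEquiv N p).1 := by
    rw [Fintype.sum_prod_type]
    rfl
  rw [h1, (swapEquiv N).sum_comp (fun p => F p.1), Fintype.sum_prod_type]
  simp only [Finset.sum_const, Finset.card_univ, nsmul_eq_mul]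
  rw [← Finset.mul_sum]

/-- `E` only depends on the coordinates in `T`. -/
def DependsOn' (E : Finset (V → A)) (T : Finset V) : Prop :=
  ∀ a b : V → A, (∀ i ∈ T, a i = b i) → (a ∈ E ↔ b ∈ E)

/-- Independence. -/
theorem card_inter_mul (E G : Finset (V → A)) (T T' : Finset V) (hE : DependsOn' E T)
    (hG : DependsOn' G T') (hTT : Disjoint T T') :
    ((E ∩ G).card : ℝ) * (Fintype.card (V → A) : ℝ) = (E.card : ℝ) * (G.card : ℝ) := by
  have h := sum_glue T (fun a => if a ∈ E ∩ G then (1 : ℝ) else 0)
  have h1 : ∀ a b : V → A, (if T.piecewise a b ∈ E ∩ G then (1 : ℝ) else 0) =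
      (if a ∈ E then (1 : ℝ) else 0) * (if b ∈ G then (1 : ℝ) else 0) := by
    intro a b
    have e1 : T.piecewise a b ∈ E ↔ a ∈ E := hE _ _ (fun i hi => by simp [hi])
    have e2 : T.piecewise a b ∈ G ↔ b ∈ G := hG _ _ (fun i hi => by
      have : i ∉ T := fun h => Finset.disjoint_left.mp hTT h hi
      simp [this])
    simp only [Finset.mem_inter, e1, e2]
    by_cases ha : a ∈ E <;> by_cases hb : b ∈ G <;> simp [ha, hb]
  simp only [h1] at h
  rw [← Finset.sum_mul_sum] at h
  simp only [Finset.sum_ite_mem, Finset.univ_inter, Finset.sum_const, nsmul_eq_mul, mul_one] at h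
  rw [h]
  ring

/-- The complement of the union of the events in `S`. -/
def good (E : V → Finset (V → A)) (S : Finset V) : Finset (V → A) :=
  Finset.univ.filter fun a => ∀ u ∈ S, a ∉ E u

theorem mem_good (E : V → Finset (V → A)) (S : Finset V) (a : V → A) :
    a ∈ good E S ↔ ∀ u ∈ S, a ∉ E u := by
  simp [good]

theorem good_dependsOn (E : V → Finset (V → A)) (T : V → Finset V)
    (hT : ∀ v, DependsOn' (E v) (T v)) (S : Finset V) :
    DependsOn' (good E S) (S.biUnion T) := by
  intro a b hab
  rw [mem_good, mem_good]
  refine forall₂_congr fun u hu => ?_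
  rw [hT u a b (fun i hi => hab i (Finset.mem_biUnion.mpr ⟨u, hu, hi⟩))]

theorem lll_step (E : V → Finset (V → A)) (T : V → Finset V)
    (hT : ∀ v, DependsOn' (E v) (T v)) (I : Finset V) (p : ℝ) (hp : 0 ≤ p) (d : ℕ)
    (hd : ∀ v ∈ I, (I.filter fun u => ¬ Disjoint (T v) (T u)).card ≤ d)
    (hE : ∀ v ∈ I, ((E v).card : ℝ) ≤ p * (Fintype.card (V → A) : ℝ))
    (hpd : 4 * p * d ≤ 1) :
    ∀ n : ℕ, ∀ S ⊆ I, S.card = n → ∀ v ∈ I,
      ((E v ∩ good E S).card : ℝ) ≤ 2 * p * ((good E S).card : ℝ) := by
  intro n
  induction n using Nat.strong_induction_on with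
  | _ n ih =>
    intro S hSI hSn v hv
    by_cases hvS : v ∈ S
    · have : E v ∩ good E S = ∅ := by
        rw [Finset.eq_empty_iff_forall_notMem]
        intro a ha
        rw [Finset.mem_inter, mem_good] at ha
        exact ha.2 v hvS ha.1
      rw [this]
      simp only [Finset.card_empty, Nat.cast_zero]
      positivity
    · set S1 := S.filter fun u => ¬ Disjoint (T v) (T u) with hS1
      set S2 := S.filter fun u => Disjoint (T v) (T u) with hS2
      have hcardΩ : (0 : ℝ) ≤ (Fintype.card (V → A) : ℝ) := Nat.cast_nonneg _
      -- independence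
      have hind := card_inter_mul (E v) (good E S2) (T v) (S2.biUnion T) (hT v)
        (good_dependsOn E T hT S2) (by
          rw [Finset.disjoint_biUnion_right]
          intro u hu
          exact (Finset.mem_filter.mp hu).2)
      have hnum : ((E v ∩ good E S2).card : ℝ) ≤ p * ((good E S2).card : ℝ) := by
        rcases hcardΩ.eq_or_lt with h0 | h0
        · have : (good E S2).card = 0 := by
            have h1 : (good E S2).card ≤ Fintype.card (V → A) := Finset.card_le_univ _
            have h2 : Fintype.card (V → A) = 0 := by exact_mod_cast h0.symm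
            omega
          have h3 : (E v ∩ good E S2).card = 0 := by
            have : (E v ∩ good E S2).card ≤ (good E S2).card :=
              Finset.card_le_card Finset.inter_subset_right
            omega
          rw [this, h3]
          simp
        · have h1 := hE v hv
          have h2 : ((E v ∩ good E S2).card : ℝ) * (Fintype.card (V → A) : ℝ) ≤
              (p * ((good E S2).card : ℝ)) * (Fintype.card (V → A) : ℝ) := by
            rw [hind]
            have h3 : (0 : ℝ) ≤ ((good E S2).card : ℝ) := Nat.cast_nonneg _
            nlinarith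
          exact le_of_mul_le_mul_right h2 h0
      have hnum' : ((E v ∩ good E S).card : ℝ) ≤ ((E v ∩ good E S2).card : ℝ) := by
        have : E v ∩ good E S ⊆ E v ∩ good E S2 := by
          intro a ha
          rw [Finset.mem_inter, mem_good] at ha ⊢
          exact ⟨ha.1, fun u hu => ha.2 u (Finset.mem_filter.mp hu).1⟩
        exact_mod_cast Finset.card_le_card this
      -- denominator
      have hden : ((good E S2).card : ℝ) ≤ 2 * ((good E S).card : ℝ) := by
        by_cases hemp : S1 = ∅
        · have : S2 = S := by
            apply Finset.filter_true_of_mem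
            intro u hu
            by_contra hcon
            have : u ∈ S1 := Finset.mem_filter.mpr ⟨hu, hcon⟩
            rw [hemp] at this
            simp at this
          rw [this]
          have : (0 : ℝ) ≤ ((good E S).card : ℝ) := Nat.cast_nonneg _
          linarith
        · have hlt : S2.card < n := by
            rw [← hSn]
            apply Finset.card_lt_card
            refine ⟨Finset.filter_subset _ _, fun hsub => ?_⟩
            obtain ⟨u, hu⟩ := Finset.nonempty_iff_ne_empty.mpr hemp
            have h1 := Finset.mem_filter.mp hu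
            have h2 := hsub h1.1
            exact h1.2 (Finset.mem_filter.mp h2).2
          have hsub : good E S2 ⊆ good E S ∪ S1.biUnion (fun u => E u ∩ good E S2) := by
            intro a ha
            by_cases hgood : a ∈ good E S
            · exact Finset.mem_union_left _ hgood
            · apply Finset.mem_union_right
              rw [mem_good] at hgood
              push Not at hgood
              obtain ⟨u, huS, hau⟩ := hgood
              have hu1 : u ∈ S1 := by
                rw [hS1, Finset.mem_filter]
                refine ⟨huS, fun hdis => ?_⟩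
                rw [mem_good] at ha
                exact ha u (Finset.mem_filter.mpr ⟨huS, hdis⟩) hau
              exact Finset.mem_biUnion.mpr ⟨u, hu1, Finset.mem_inter.mpr ⟨hau, ha⟩⟩
          have h1 : (good E S2).card ≤ (good E S).card +
              ∑ u ∈ S1, (E u ∩ good E S2).card :=
            (Finset.card_le_card hsub).trans ((Finset.card_union_le _ _).trans
              (Nat.add_le_add_left Finset.card_biUnion_le _))
          have h2 : ((good E S2).card : ℝ) ≤ ((good E S).card : ℝ) +
              ∑ u ∈ S1, ((E u ∩ good E S2).card : ℝ) := by exact_mod_cast h1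
          have h3 : ∑ u ∈ S1, ((E u ∩ good E S2).card : ℝ) ≤
              ∑ _u ∈ S1, 2 * p * ((good E S2).card : ℝ) := by
            apply Finset.sum_le_sum
            intro u hu
            exact ih S2.card hlt S2 ((Finset.filter_subset _ _).trans hSI) rfl u
              (hSI (Finset.mem_filter.mp hu).1)
          rw [Finset.sum_const, nsmul_eq_mul] at h3
          have h4 : (S1.card : ℝ) ≤ d := by
            have : S1.card ≤ (I.filter fun u => ¬ Disjoint (T v) (T u)).card :=
              Finset.card_le_card (Finset.filter_subset_filter _ hSI)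
            exact_mod_cast this.trans (hd v hv)
          have h5 : (0 : ℝ) ≤ ((good E S2).card : ℝ) := Nat.cast_nonneg _
          have h6 : (S1.card : ℝ) * (2 * p * ((good E S2).card : ℝ)) ≤
              (d : ℝ) * (2 * p * ((good E S2).card : ℝ)) := by
            apply mul_le_mul_of_nonneg_right h4
            positivity
          nlinarith
      calc ((E v ∩ good E S).card : ℝ) ≤ ((E v ∩ good E S2).card : ℝ) := hnum'
        _ ≤ p * ((good E S2).card : ℝ) := hnum
        _ ≤ p * (2 * ((good E S).card : ℝ)) := by gcongr
        _ = 2 * p * ((good E S).card : ℝ) := by ring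

/-- The symmetric local lemma. -/
theorem lll [Nonempty A] (E : V → Finset (V → A)) (T : V → Finset V)
    (hT : ∀ v, DependsOn' (E v) (T v)) (I : Finset V) (p : ℝ) (hp : 0 ≤ p) (d : ℕ)
    (hd : ∀ v ∈ I, (I.filter fun u => ¬ Disjoint (T v) (T u)).card ≤ d)
    (hE : ∀ v ∈ I, ((E v).card : ℝ) ≤ p * (Fintype.card (V → A) : ℝ))
    (hpd : 4 * p * d ≤ 1) (hp2 : 2 * p < 1) :
    ∃ a : V → A, ∀ v ∈ I, a ∉ E v := by
  have key : ∀ S : Finset V, S ⊆ I → 0 < ((good E S).card : ℝ) := by
    intro S
    induction S using Finset.induction_on with
    | empty =>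
      intro _
      have : good E ∅ = Finset.univ := by simp [good]
      rw [this, Finset.card_univ]
      exact_mod_cast Fintype.card_pos
    | insert v S hvS ih =>
      intro hsub
      have hSI : S ⊆ I := (Finset.subset_insert _ _).trans hsub
      have h1 := ih hSI
      have h2 := lll_step E T hT I p hp d hd hE hpd S.card S hSI rfl v
        (hsub (Finset.mem_insert_self _ _))
      have h3 : good E S ⊆ good E (insert v S) ∪ (E v ∩ good E S) := by
        intro a ha
        by_cases hav : a ∈ E v
        · exact Finset.mem_union_right _ (Finset.mem_inter.mpr ⟨hav, ha⟩)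
        · apply Finset.mem_union_left
          rw [mem_good] at ha ⊢
          intro u hu
          rcases Finset.mem_insert.mp hu with h | h
          · rw [h]; exact hav
          · exact ha u h
      have h4 : ((good E S).card : ℝ) ≤ ((good E (insert v S)).card : ℝ) +
          ((E v ∩ good E S).card : ℝ) := by
        exact_mod_cast (Finset.card_le_card h3).trans (Finset.card_union_le _ _)
      nlinarith
  have := key I (Finset.Subset.refl _)
  have hne : (good E I).Nonempty := by
    rw [← Finset.card_pos]
    exact_mod_cast this
  obtain ⟨a, ha⟩ := hne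
  exact ⟨a, (mem_good E I a).mp ha⟩

end

end Pool.Agent.Helper14.Sq
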